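import Pool.Agent.R3B.StmtsU

/-!
Row URT of squad R3B: the uniform rate.
-/

set_option autoImplicit false

namespace Pool.Agent.R3B.H49

open Set Filter Topology MeasureTheory
open Pool.Agent.Helper39_Wave (phi)
open Pool.Agent.Helper72_Shell (CharSol En psi fold fold_continuous fold_nonneg fold_neg fold_per)
open Pool.Agent.R3B

theorem urt (hSUP : SupStmt) (hKRN : KrnStmt) (hKEY : KeyStmt) (hDRP : DrpStmt) (hFLR : FlrStmt)
    (hSQL : SqlStmt) : UrtStmt := by
  intro α ℓ k0 k1 Λ e0 hα hα2 hℓ hk0 hk1 hΛ he0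
  -- constants
  set β : ℝ := min α ((2 + α) / 4) with hβ
  have hβ0 : 0 < β := lt_min hα (by linarith)
  have hβ1 : β < 1 := lt_of_le_of_lt (min_le_right _ _) (by linarith)
  have hβα : β ≤ α := min_le_left _ _
  set s : ℝ := β / α with hs
  have hs0 : 0 < s := by positivity
  have hs2 : 1 / 2 < s := by
    rw [hs, lt_div_iff₀ hα, hβ, lt_min_iff]
    constructor <;> linarith
  obtain ⟨C0, hC0, hC0b⟩ := hKRN α ℓ k1 Λ β hα hℓ hk1 hΛ hβ0 hβ1 hβα
  set q : ℝ := cc α ℓ k0 k1 Λ with hq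
  have hq0 : 0 < q := by
    rw [hq]; unfold cc
    have := Real.exp_pos (-(lmd α k0 k1 Λ * ℓ * (α + 2)))
    positivity
  set m : ℝ := min 1 (α * q) with hm
  have hmpos : 0 < m := lt_min one_pos (by positivity)
  have hden : ∀ k : ℕ, m * ((k : ℝ) + 1) ≤ 1 + α * q * k := by
    intro k
    have h1 : m ≤ 1 := min_le_left _ _
    have h2 : m ≤ α * q := min_le_right _ _
    have hk : (0 : ℝ) ≤ k := by positivity
    nlinarith
  set M : ℕ → ℝ := fun k => (1 + α * q * k) ^ (-(1 / α)) with hM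
  have hdpos : ∀ k : ℕ, 0 < 1 + α * q * k := fun k => by positivity
  have hMpos : ∀ k, 0 < M k := fun k => Real.rpow_pos_of_pos (hdpos k) _
  have hMβ : ∀ k : ℕ, M k ^ β ≤ m ^ (-s) * ((k : ℝ) + 1) ^ (-s) := by
    intro k
    have h1 : M k ^ β = (1 + α * q * k) ^ (-s) := by
      simp only [hM]
      rw [← Real.rpow_mul (hdpos k).le]
      congr 1
      rw [hs]; ring
    rw [h1, ← Real.mul_rpow hmpos.le (by positivity)]
    exact Real.rpow_le_rpow_of_nonpos (by positivity) (hden k) (by linarith)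
  set L : ℝ := C0 * m ^ (-s) with hL
  have hL0 : 0 < L := by
    have := Real.rpow_pos_of_pos hmpos (-s)
    positivity
  set w : ℕ → ℝ := fun k => C0 * M k ^ β with hw
  have hw0 : ∀ k, 0 ≤ w k := fun k => by
    have := Real.rpow_pos_of_pos (hMpos k) β
    simp only [hw]
    positivity
  have hwle : ∀ k : ℕ, w k ≤ L * ((k : ℝ) + 1) ^ (-s) := by
    intro k
    have h1 := mul_le_mul_of_nonneg_left (hMβ k) hC0.le
    simp only [hw, hL]
    linarith
  set ε : ℕ → ℝ := fun k => 8 * (α + 2) * (α + 1) * w k ^ 2 with hε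
  set C : ℝ := 8 * (α + 2) * (α + 1) * L ^ 2 + 16 * L with hC
  have hC0' : 0 ≤ C := by positivity
  set θ : ℝ := Real.exp (-(4 * (k1 * Λ ^ α) * (2 * ℓ))) with hθ
  have hθ0 : 0 < θ := Real.exp_pos _
  have hΛα : 0 ≤ Λ ^ α := Real.rpow_nonneg hΛ α
  have hθ1 : θ ≤ 1 := by
    rw [hθ, Real.exp_le_one_iff]
    have : 0 ≤ 4 * (k1 * Λ ^ α) * (2 * ℓ) := by positivity
    linarith
  obtain ⟨c, hc, hlow0⟩ := hSQL α C s e0 θ hα hC0' hs2 he0 hθ0 hθ1
  set B : ℝ := 2 + 1 / (2 * ℓ) with hB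
  have hBpos : 0 < B := by positivity
  have hneg : -(2 / α) ≤ 0 := by
    have : 0 < 2 / α := by positivity
    linarith
  refine ⟨c * B ^ (-(2 / α)), 2 * ℓ * (m / (1 + ℓ)) ^ (-(2 / α)), by positivity, by positivity, ?_⟩
  intro κ b0 b P hU hE0
  have h := hU.sol
  have hκ := h.kpos
  have hdec : ∀ (k : ℕ) (t : ℝ), k * ℓ ≤ t → ∀ y, |P t y| ≤ M k :=
    fun k t ht y => hSUP κ α ℓ b0 b P k0 k1 Λ hU k t y ht
  have hL2 : (0 : ℝ) < 2 * ℓ := by linarith
  have hdec2 : ∀ (k : ℕ) (t : ℝ), k * (2 * ℓ) ≤ t → ∀ y, |P t y| ≤ M k := by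
    intro k t ht y
    apply hdec k t _ y
    have : (0 : ℝ) ≤ (k : ℝ) * ℓ := by positivity
    linarith
  have hflr : ∀ T δ : ℝ, 0 ≤ T → 0 ≤ δ →
      Real.exp (-(4 * (k1 * Λ ^ α) * δ)) * En ℓ P T ≤ En ℓ P (T + δ) :=
    hFLR κ α ℓ b0 b P k0 k1 Λ hU
  have hpos : ∀ t, 0 ≤ t → 0 < En ℓ P t := by
    intro t ht
    have h1 := hflr 0 t le_rfl ht
    rw [zero_add] at h1
    have h2 : 0 < En ℓ P 0 := lt_of_lt_of_le he0 hE0
    exact lt_of_lt_of_le (mul_pos (Real.exp_pos _) h2) h1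
  set E : ℕ → ℝ := fun k => En ℓ P (k * (2 * ℓ)) with hE
  have hkl : ∀ k : ℕ, (0 : ℝ) ≤ k * (2 * ℓ) := fun k => by positivity
  have hsucc : ∀ k : ℕ, ((k + 1 : ℕ) : ℝ) * (2 * ℓ) = k * (2 * ℓ) + 2 * ℓ := fun k => by
    push_cast; ring
  have hsucc2 : ∀ k : ℕ, ((k + 2 : ℕ) : ℝ) * (2 * ℓ) = k * (2 * ℓ) + 2 * (2 * ℓ) := fun k => by
    push_cast; ring
  have hker : ∀ k : ℕ, Ker κ α ℓ b P (k * (2 * ℓ)) (w k) (WW κ α ℓ b Λ (M k)) := by
    intro k
    have hmin : ∀ x, 0 ≤ min (2 * M k) (Λ * fold ℓ x) := fun x =>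
      le_min (by have := hMpos k; positivity) (mul_nonneg hΛ (fold_nonneg hℓ x))
    refine ⟨?_, ?_, ?_, ?_, ?_, ?_⟩
    · unfold WW
      apply Continuous.mul (continuous_const.mul h.bcont)
      apply Continuous.rpow_const
      · exact continuous_const.min (continuous_const.mul (fold_continuous ℓ))
      · intro x
        exact Or.inr hα.le
    · intro x
      unfold WW
      exact mul_nonneg (mul_nonneg hκ.le (h.bnn x)) (Real.rpow_nonneg (hmin x) α)
    · intro x
      unfold WW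
      rw [h.beven, fold_neg]
    · intro x
      unfold WW
      rw [h.bper, fold_per hℓ]
    · exact hC0b κ b (M k) hκ h.bcont h.bnn hU.hi (hMpos k).le
    · intro r y hr
      unfold WW
      apply mul_le_mul_of_nonneg_left _ (mul_nonneg hκ.le (h.bnn _))
      apply Real.rpow_le_rpow (abs_nonneg _) _ hα.le
      apply le_min
      · have b1 := abs_le.mp (hdec2 k r hr y)
        have b2 := abs_le.mp (hdec2 k r hr (2 * r - y))
        rw [abs_le]
        constructor <;> linarith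
      · exact hU.vb r y ((hkl k).trans hr)
  have hsq : ∀ k : ℕ, (((k : ℝ) + 1) ^ (-s)) ^ 2 = ((k : ℝ) + 1) ^ (-(2 * s)) := by
    intro k
    rw [← Real.rpow_natCast, ← Real.rpow_mul (by positivity)]
    congr 1
    push_cast; ring
  have hlow : ∀ k : ℕ, c * ((k : ℝ) + 1) ^ (-(2 / α)) ≤ E k := by
    apply hlow0 E ε
    · exact fun k => hpos _ (hkl k)
    · simp only [hE]
      simpa using hE0
    · intro k
      simp only [hE]
      rw [hsucc]
      exact h.En_anti (hkl k) (by linarith)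
    · intro k
      simp only [hE]
      rw [hsucc]
      exact hflr _ _ (hkl k) hL2.le
    · intro k
      simp only [hε]
      positivity
    · intro k
      simp only [hε]
      have h1 : w k ^ 2 ≤ (L * ((k : ℝ) + 1) ^ (-s)) ^ 2 :=
        pow_le_pow_left₀ (hw0 k) (hwle k) 2
      rw [mul_pow L, hsq] at h1
      have h2 : 0 ≤ 8 * (α + 2) * (α + 1) := by positivity
      have h3 := mul_le_mul_of_nonneg_left h1 h2
      refine h3.trans ?_
      rw [← mul_assoc]
      apply mul_le_mul_of_nonneg_right _ (Real.rpow_nonneg (by positivity) _)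
      rw [hC]
      linarith
    · intro k
      simp only [hE]
      rw [hsucc]
      have h1 := hDRP κ α ℓ b0 b P (k * (2 * ℓ)) (w k) _ h (hkl k) (hker k)
      refine h1.trans ?_
      apply mul_le_mul_of_nonneg_right _ (h.En_nonneg _)
      have h2 := hwle k
      have h3 : 0 ≤ ((k : ℝ) + 1) ^ (-s) := Real.rpow_nonneg (by positivity) _
      have h4 : 0 ≤ 8 * (α + 2) * (α + 1) * L ^ 2 * ((k : ℝ) + 1) ^ (-s) := by positivity
      have h5 : C * ((k : ℝ) + 1) ^ (-s) =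
          8 * (α + 2) * (α + 1) * L ^ 2 * ((k : ℝ) + 1) ^ (-s) + 16 * (L * ((k : ℝ) + 1) ^ (-s)) := by
        rw [hC]; ring
      rw [h5]
      linarith
    · intro k
      simp only [hE, hε]
      rw [hsucc, hsucc2]
      exact hKEY κ α ℓ b0 b P (k * (2 * ℓ)) (w k) _ h (hkl k) (hker k)
  -- continuous time
  intro t ht
  set k : ℕ := ⌊t / ℓ⌋₊ with hk
  have htl : 0 ≤ t / ℓ := by positivity
  have hk1' : (k : ℝ) ≤ t / ℓ := Nat.floor_le htl
  have hk2 : t / ℓ < (k : ℝ) + 1 := Nat.lt_floor_add_one _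
  have hk3 : (k : ℝ) * ℓ ≤ t := by rwa [le_div_iff₀ hℓ] at hk1'
  have hk4 : t < ((k : ℝ) + 1) * ℓ := by rwa [div_lt_iff₀ hℓ] at hk2
  constructor
  · set k2 : ℕ := ⌊t / (2 * ℓ)⌋₊ with hk2d
    have htl2 : 0 ≤ t / (2 * ℓ) := by positivity
    have hk1b : (k2 : ℝ) ≤ t / (2 * ℓ) := Nat.floor_le htl2
    have hk2b : t / (2 * ℓ) < (k2 : ℝ) + 1 := Nat.lt_floor_add_one _
    have hk4b : t < ((k2 : ℝ) + 1) * (2 * ℓ) := by rwa [div_lt_iff₀ hL2] at hk2b
    have h1 := hlow (k2 + 1)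
    simp only [hE] at h1
    rw [hsucc] at h1
    have h2 : En ℓ P (k2 * (2 * ℓ) + 2 * ℓ) ≤ En ℓ P t := h.En_anti ht (by linarith)
    refine le_trans ?_ (h1.trans h2)
    rw [mul_assoc]
    apply mul_le_mul_of_nonneg_left _ hc.le
    rw [← Real.mul_rpow hBpos.le (by linarith)]
    apply Real.rpow_le_rpow_of_nonpos (by positivity) _ hneg
    push_cast
    have h3 : B * (1 + t) = 2 + 2 * t + 1 / (2 * ℓ) + t / (2 * ℓ) := by rw [hB]; ring
    rw [h3]
    have : 0 < 1 / (2 * ℓ) := by positivity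
    linarith
  · have h1 : En ℓ P t ≤ 2 * ℓ * M k ^ 2 := by
      unfold En
      have hb := hdec k t hk3
      have h2 : ∫ y in (0 : ℝ)..(2 * ℓ), P t y ^ 2 ≤ ∫ _y in (0 : ℝ)..(2 * ℓ), M k ^ 2 := by
        apply intervalIntegral.integral_mono_on (by linarith)
          (((h.contP continuous_const continuous_id).pow 2).intervalIntegrable _ _)
          (continuous_const.intervalIntegrable _ _)
        intro y _
        show P t y ^ 2 ≤ M k ^ 2
        exact sq_le_sq' (abs_le.mp (hb y)).1 (abs_le.mp (hb y)).2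
      rw [intervalIntegral.integral_const, smul_eq_mul, sub_zero] at h2
      exact h2
    refine h1.trans ?_
    rw [mul_assoc (2 * ℓ)]
    apply mul_le_mul_of_nonneg_left _ (by positivity)
    have h2 : M k ^ 2 = (1 + α * q * k) ^ (-(2 / α)) := by
      simp only [hM]
      rw [← Real.rpow_natCast, ← Real.rpow_mul (hdpos k).le]
      congr 1
      push_cast; ring
    rw [h2, ← Real.mul_rpow (by positivity) (by linarith)]
    apply Real.rpow_le_rpow_of_nonpos (by positivity) _ hneg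
    refine le_trans ?_ (hden k)
    rw [div_mul_eq_mul_div, mul_div_assoc]
    apply mul_le_mul_of_nonneg_left _ hmpos.le
    rw [div_le_iff₀ (by positivity)]
    nlinarith

end Pool.Agent.R3B.H49
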